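import Mathlib
import Pool.Agent.Work.MP_59f3ad_nt.PX.AllF

/-!
Schneider's conjecture ascends, for all twists at once, outside an explicit share of the cyclic
extensions of degree `p` of a number field `F` which contains the `p`-th roots of unity, `p` odd.
-/

set_option autoImplicit false

open NumberField IsDedekindDomain

namespace Pool.Agent.Results.MP_59f3ad_nt.CyclicExtensions

open Pool.Agent.Work.MP_59f3ad_nt

universe u

/-- The places of `K` above `p`. -/
def Above (K : Type u) [Field K] [NumberField K] (p : ℕ) : Set (HeightOneSpectrum (𝓞 K)) :=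
  {v | (p : 𝓞 K) ∈ v.asIdeal}

/-- The valuation of `a` at `v` is divisible by `p`. -/
def DvdVal (K : Type u) [Field K] [NumberField K] (p : ℕ) (v : HeightOneSpectrum (𝓞 K)) (a : K) :
    Prop := ∃ y : K, v.valuation K a = v.valuation K y ^ p

/-- `a` is a `p`-th power in the completion `K_v`. -/
def LocPow (K : Type u) [Field K] [NumberField K] (p : ℕ) (v : HeightOneSpectrum (𝓞 K)) (a : K) :
    Prop := ∃ y : v.adicCompletion K, y ^ p = algebraMap K (v.adicCompletion K) a

/-- `m0 ∏ y_i^(c_i)`. -/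
noncomputable def value {F : Type u} [Field F] [NumberField F] {t : ℕ} (m0 : 𝓞 F)
    (y : Fin t → 𝓞 F) (c : Fin t → ℕ) : 𝓞 F := m0 * ∏ i, y i ^ c i

/-- The special places: the places above `p`, and the places where the valuation of `m0` is not
divisible by `p`. -/
def Special (F : Type u) [Field F] [NumberField F] (p : ℕ) (m0 : 𝓞 F) :
    Set (HeightOneSpectrum (𝓞 F)) := {v | v ∈ Above F p ∨ ¬ DvdVal F p v (m0 : F)}

/-- The hypothesis on the base field: Schneider's conjecture for `F`, `p` and the twist `r`; or `F`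
has one place above `p` and class number prime to `p`. -/
def Base (F : Type u) [Field F] [NumberField F] (p : ℕ) [Fact p.Prime] (r : ℤ) : Prop :=
  Sha1 F p r (Above F p) = ⊥ ∨
    ((∀ v ∈ Above F p, ∀ w ∈ Above F p, v = w) ∧ ¬ p ∣ classNumber F)

/-- Schneider's conjecture at `p` ascends from `F` to `L = F(m^(1/p))` for all twists: for all
integers `r ≠ 0` with `Base F p r`, `Ш^1(O_{L,S}, ℤ_p(r)) = 0` for all `S` which contain the places
above `p`. (If `m` were a `p`-th power in `F`, every `L` of degree `p` would qualify; this does not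
happen in the theorem, because there `m` is not a `p`-th power at the places above `p`.) -/
def Ascends {F : Type u} [Field F] [NumberField F] (p : ℕ) [Fact p.Prime] (m : 𝓞 F) : Prop :=
  ∀ (L : Type u) [Field L] [NumberField L] [Algebra F L] (y : L), Module.finrank F L = p →
    y ^ p = algebraMap F L (m : F) → ∀ r : ℤ, r ≠ 0 → Base F p r →
    ∀ S : Set (HeightOneSpectrum (𝓞 L)), (∀ v ∈ Above L p, v ∈ S) → Sha1 L p r S = ⊥

/-- `d` is a witness for the exponent vector `e`: its valuations at the non-special places are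
divisible by `p`, and `d ∏ x_i^(e_i)` is, at every special place, a `p`-th power times a power of
`M = m0 ∏ x_i^(c_i)`. -/
structure Witness {F : Type u} [Field F] [NumberField F] (p : ℕ) {t : ℕ} (m0 : 𝓞 F)
    (x : Fin t → 𝓞 F) (c : Fin t → ℕ) (e : Fin t → ZMod p) (d : 𝓞 F) : Prop where
  ne : d ≠ 0
  val : ∀ q : HeightOneSpectrum (𝓞 F), q ∉ Special F p m0 → DvdVal F p q (d : F)
  loc : ∀ v ∈ Special F p m0, ∃ k : ℕ,
    LocPow F p v ((d * (∏ i, x i ^ (e i).val) * value m0 x c ^ k : 𝓞 F) : F)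

/-- `d` and `d'` are equal up to `p`-th powers of `F*`. -/
def SameClass {F : Type u} [Field F] [NumberField F] (p : ℕ) (d d' : 𝓞 F) : Prop :=
  ∃ g g' : 𝓞 F, g ≠ 0 ∧ g' ≠ 0 ∧ g ^ p * d = g' ^ p * d'

/-- `R` is a system of representatives of the pairs (`e`, class of `d` up to `p`-th powers), `e` not
proportional to `c`, `d` a witness for `e`; its number of elements is the number of these pairs. -/
structure Representatives {F : Type u} [Field F] [NumberField F] (p : ℕ) {t : ℕ} (m0 : 𝓞 F)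
    (x : Fin t → 𝓞 F) (c : Fin t → ℕ) (R : Finset ((Fin t → ZMod p) × 𝓞 F)) : Prop where
  mem : ∀ a ∈ R, (∃ i k, (c k : ZMod p) * a.1 i ≠ (c i : ZMod p) * a.1 k) ∧
    Witness p m0 x c a.1 a.2
  inj : ∀ a ∈ R, ∀ b ∈ R, a.1 = b.1 → SameClass p a.2 b.2 → a = b
  cov : ∀ (e : Fin t → ZMod p) (D : 𝓞 F), (∃ i k, (c k : ZMod p) * e i ≠ (c i : ZMod p) * e k) →
    Witness p m0 x c e D → ∃ d, (e, d) ∈ R ∧ SameClass p D d

/-- A finite set of prime elements of `𝓞 F` not above `p`, with all conjugates of absolute value at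
most `X`, no two of them associated. -/
structure PrimeSet (F : Type u) [Field F] [NumberField F] (p X : ℕ) (P : Finset (𝓞 F)) : Prop where
  pr : ∀ z ∈ P, Prime z
  np : ∀ z ∈ P, ¬ z ∣ (p : 𝓞 F)
  bd : ∀ z ∈ P, ∀ s : F →+* ℂ, ‖s (z : F)‖ ≤ (X : ℝ)
  na : ∀ z ∈ P, ∀ z' ∈ P, Associated z z' → z = z'

theorem wt_iff {F : Type u} [Field F] [NumberField F] {p t : ℕ} {m0 : 𝓞 F} {x : Fin t → 𝓞 F}
    {c : Fin t → ℕ} {e : Fin t → ZMod p} {d : 𝓞 F} :
    PX.Wu p m0 x c e d ↔ Witness p m0 x c e d :=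
  ⟨fun h => ⟨h.ne, h.val, h.loc⟩, fun h => ⟨h.ne, h.val, h.loc⟩⟩

open Classical in
/-- **Theorem.** Let `F` be a number field which contains a primitive `p`-th root of unity, `p` odd,
`t ≥ 1`, `m0`, `x_1, …, x_t` nonzero integers of `F` (the `x_i` only give classes modulo `p`-th powers
at the special places), `1 ≤ c_i < p`, such that `m0 ∏ x_i^(c_i)` is not a `p`-th power at any place
above `p`. Let `N` be the (finite) number of the pairs (`e`, `d` up to `p`-th powers) with `e` in
`(ℤ/p)^t` not proportional to `c` and `d` a witness for `e`. If every witness for `0` is a `p`-th power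
then `N ≤ p^t - p`. For every `ε > 0` there is `X0` such that for `X ≥ X0` and all sets `P_1, …, P_t` of
prime elements with conjugates bounded by `X`, in the classes of the `x_i`, with at least
`X^(n - 1/4)` elements, `n = [F : ℚ]`, such that every witness `d` for `0` is a `p`-th power, or, for
some `i`, is not a `p`-th power modulo any prime of `P_i` which does not divide it: Schneider's
conjecture ascends (for all twists) from `F` to `F((m0 ∏ π_i^(c_i))^(1/p))` for all but at most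
`(N / ((p-1) p^t) + ε) ∏ |P_i|` of the tuples `(π_1, …, π_t)` in `∏ P_i`. -/
theorem result (F : Type u) [Field F] [NumberField F] (p : ℕ) [Fact p.Prime] (hp : p ≠ 2)
    (ζ : F) (hζ : IsPrimitiveRoot ζ p) (t : ℕ) (ht : 1 ≤ t) (m0 : 𝓞 F) (hm0 : m0 ≠ 0)
    (x : Fin t → 𝓞 F) (hx : ∀ i, x i ≠ 0) (c : Fin t → ℕ) (hc : ∀ i, 1 ≤ c i ∧ c i < p)
    (hM : ∀ v ∈ Above F p, ¬ LocPow F p v (value m0 x c : F)) :
    ∃ R : Finset ((Fin t → ZMod p) × 𝓞 F), Representatives p m0 x c R ∧
      ((∀ d : 𝓞 F, Witness p m0 x c 0 d → ∃ g : 𝓞 F, g ^ p = d) → R.card ≤ p ^ t - p) ∧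
      ∀ ε : ℝ, 0 < ε → ∃ X0 : ℕ, ∀ X : ℕ, X0 ≤ X → ∀ P : Fin t → Finset (𝓞 F),
        (∀ i, PrimeSet F p X (P i)) →
        (∀ i, (X : ℝ) ^ ((Module.finrank ℚ F : ℝ) - 1 / 4) ≤ (P i).card) →
        (∀ i, ∀ z ∈ P i, ∀ v ∈ Special F p m0, ∃ y : v.adicCompletion F,
          algebraMap F (v.adicCompletion F) (z : F) =
            algebraMap F (v.adicCompletion F) (x i : F) * y ^ p) →
        (∀ d : 𝓞 F, Witness p m0 x c 0 d → (∃ g : 𝓞 F, g ^ p = d) ∨
          ∃ i, ∀ z ∈ P i, ¬ z ∣ d → ¬ ∃ y : 𝓞 F, z ∣ y ^ p - d) →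
        (((Fintype.piFinset P).filter fun π => ¬ Ascends p (value m0 π c)).card : ℝ) ≤
          ((R.card : ℝ) / (((p : ℝ) - 1) * (p : ℝ) ^ t) + ε) * ∏ i, ((P i).card : ℝ) := by
  obtain ⟨R, hR⟩ := PX.all_REU.{u} F p t m0 x c hm0
  refine ⟨R, ⟨fun a ha => ⟨(hR.mem a ha).1, wt_iff.1 (hR.mem a ha).2⟩, hR.inj,
    fun e D he hD => hR.cov e D he (wt_iff.2 hD)⟩, fun h0 => ?_, fun ε hε => ?_⟩
  · exact PX.all_BNU.{u} F p t m0 x c ht hm0 hx hc (fun d hd => h0 d (wt_iff.1 hd)) R hR
  · obtain ⟨X0, hX0⟩ := PX.all_CNU.{u} F p hp ζ hζ t m0 x c ht hm0 hx hc hM R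
      (fun a ha => (hR.mem a ha).2.ne) hR.cov ε hε
    refine ⟨X0, fun X hX P hP hcard hloc hH => ?_⟩
    refine le_trans ?_ (hX0 X hX P (fun i => ⟨(hP i).pr, (hP i).np, (hP i).bd, (hP i).na⟩)
      hcard hloc (fun d hd => hH d (wt_iff.1 hd)))
    have hsub : ((Fintype.piFinset P).filter fun π => ¬ Ascends p (value m0 π c)) ⊆
        (Fintype.piFinset P).filter (fun π => ¬ PX.Good p m0 c π) := by
      refine Finset.monotone_filter_right _ fun π _ h h1 => h ?_
      intro L _ _ _ y hL hy r hr hB S hS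
      refine h1 L y hL hy r hr ?_ S hS
      rcases hB with hB | ⟨h2, h3⟩
      · exact hB
      · exact PX.all_BAS.{u} F p hp ζ hζ h2 h3 r
    exact_mod_cast Finset.card_le_card hsub

end Pool.Agent.Results.MP_59f3ad_nt.CyclicExtensions
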