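import Mathlib
import Pool.Agent.Work.MP_59f3ad_nt.US.Fin8

/-!
Effective form of Schneider's finiteness theorem: the number of exceptional twists of a number field
`L` at an odd prime `p` is bounded by `p`-adic valuations of class numbers of subfields of cyclotomic
extensions of `L`, explicitly in terms of the degree and the discriminant; for large `p` the weighted
number of the exceptional twists divisible by `(p-1)/n` is at most `(n-1)/2 [L : ℚ]`, independent of
`p`.
-/

open NumberField IsDedekindDomain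

namespace Pool.Agent.Results.MP_59f3ad_nt.EffectiveSchneider

open Pool.Agent.Work.MP_59f3ad_nt

/-- `S` contains all finite places above `p`. -/
def Above (L : Type) [Field L] [NumberField L] (p : ℕ) (S : Set (HeightOneSpectrum (𝓞 L))) :
    Prop :=
  ∀ v : HeightOneSpectrum (𝓞 L), (p : 𝓞 L) ∈ v.asIdeal → v ∈ S

/-- The cocycles `φ_i` for the twists `r_i` are `ℤ_p`-independent modulo coboundaries: if for every
`ρ` the combination of those `φ_i` with `r_i = ρ` is a coboundary of `ℤ_p(ρ)`, then all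
coefficients are `0`. -/
def Indep (L : Type) [Field L] [NumberField L] (p : ℕ) [Fact p.Prime] {m : ℕ} (r : Fin m → ℤ)
    (φ : Fin m → GK L → ℤ_[p]) : Prop :=
  ∀ a : Fin m → ℤ_[p], (∀ ρ : ℤ, (fun g => ∑ i with r i = ρ, a i * φ i g) ∈ B1 L p ρ) → a = 0

/-- For every set `S` of finite places which contains the places above `p`, `C` holds for the sum of
the weights `w r` over every finite set of twists `r` with `P r` and `Ш^1(O_{L,S}, ℤ_p(r)) ≠ 0`, and,
with multiplicities, over the twists of every independent family of locally trivial cocycles for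
twists with `P`. -/
def Exc (L : Type) [Field L] [NumberField L] (p : ℕ) [Fact p.Prime] (P : ℤ → Prop) (w : ℤ → ℕ)
    (C : ℕ → Prop) : Prop :=
  ∀ S : Set (HeightOneSpectrum (𝓞 L)), Above L p S →
    (∀ R : Finset ℤ, (∀ r ∈ R, P r ∧ Sha1 L p r S ≠ ⊥) → C (∑ r ∈ R, w r)) ∧
    ∀ (m : ℕ) (r : Fin m → ℤ) (φ : Fin m → GK L → ℤ_[p]),
      (∀ i, P (r i) ∧ φ i ∈ ShaZ L p (r i) S) → Indep L p r φ → C (∑ i, w (r i))

/-- `C` holds for the weighted numbers (weight `1 + v_p(r)`) of exceptional twists divisible by `k`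
and not divisible by `p - 1`. -/
def ExcDvd (L : Type) [Field L] [NumberField L] (p : ℕ) [Fact p.Prime] (k : ℕ) (C : ℕ → Prop) :
    Prop :=
  Exc L p (fun r => (k : ℤ) ∣ r ∧ ¬ ((p : ℤ) - 1) ∣ r) (fun r => 1 + padicValInt p r) C

theorem result (L : Type) [Field L] [NumberField L] :
    (∀ (p : ℕ) [Fact p.Prime], p ≠ 2 →
      (∀ m : ℕ, 1 ≤ m →
        (∀ v : HeightOneSpectrum (𝓞 L), (p : 𝓞 L) ∈ v.asIdeal →
          ¬ p ^ m ∣ v.asIdeal.ramificationIdx ℤ) →
        (∀ (K : Type) [Field K] [NumberField K] [Algebra L K],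
          IsCyclotomicExtension {p ^ (m + 1)} L K →
          Exc L p (fun r => r ≠ 0) (fun _ => 1) (fun N => p ^ N ∣ classNumber K)) ∧
        Exc L p (fun r => r ≠ 0) (fun _ => 1)
          (fun N => p ^ N ≤ ((discr L).natAbs * p ^ ((m + 2) * Module.finrank ℚ L)) ^
            ((p - 1) * p ^ m))) ∧
      ((∀ v : HeightOneSpectrum (𝓞 L), (p : 𝓞 L) ∈ v.asIdeal →
          v.asIdeal.ramificationIdx ℤ = 1) →
        ∀ k n : ℕ, k * n = p - 1 →
          (∃ (E : IntermediateField L (AlgebraicClosure L)) (_ : NumberField E),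
            E ≤ IntermediateField.adjoin L {ζ : AlgebraicClosure L | ζ ^ p = 1} ∧
            Module.finrank L E = n ∧ ExcDvd L p k (fun N => p ^ N ∣ classNumber E)) ∧
          ∀ s : ℝ, 1 < s → ExcDvd L p k (fun N => (p : ℝ) ^ N ≤
            ((discr L).natAbs ^ n * p ^ ((n - 1) * Module.finrank ℚ L) : ℝ) ^ (s / 2) *
              (s / (s - 1)) ^ (n * Module.finrank ℚ L)))) ∧
    (∀ ε : ℝ, 0 < ε → ∃ p₀ : ℕ, ∀ (p : ℕ) [Fact p.Prime], p₀ ≤ p →
      (∀ k n : ℕ, k * n = p - 1 →
        ExcDvd L p k (fun N => (N : ℝ) ≤ (((n : ℝ) - 1) / 2 + ε * n) * Module.finrank ℚ L)) ∧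
      Exc L p (fun r => r ≠ 0) (fun _ => 1)
        (fun N => (N : ℝ) ≤ (3 / 2 + ε) * Module.finrank ℚ L * p)) ∧
    ∀ n : ℕ, ∃ p₀ : ℕ, ∀ (p : ℕ) [Fact p.Prime], p₀ ≤ p → ∀ k : ℕ, k * n = p - 1 →
      ExcDvd L p k (fun N => 2 * N ≤ (n - 1) * Module.finrank ℚ L) := by
  refine ⟨fun p hp hp2 => ⟨fun m hm hR => ⟨fun K _ _ _ hc => ?_, ?_⟩,
    fun hur k n hkn => ⟨?_, fun s hs => ?_⟩⟩, fun ε hε => ?_, fun n => ?_⟩
  · exact US.eff_a L p hp2 m hm hR K hc
  · exact US.eff_e L p hp2 m hm hR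
  · exact US.effN_all L p hp2 hur k n hkn
  · exact US.expN_all L p hp2 hur k n hkn s hs
  · exact US.bound_tot L ε hε
  · exact US.fixedN_all L n

end Pool.Agent.Results.MP_59f3ad_nt.EffectiveSchneider
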