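import Mathlib
import Pool.Agent.Work.MP_59f3ad_nt.QD.AllE

/-!
Schneider's conjecture at the prime `2` ascends, for all nonzero twists of a given parity at once (twist
`1`: Leopoldt's conjecture at `2`), outside an explicit share of the quadratic extensions of an
arbitrary number field `F`.
-/

set_option autoImplicit false

open NumberField IsDedekindDomain

namespace Pool.Agent.Results.MP_59f3ad_nt.QuadraticExtensions

open Pool.Agent.Work.MP_59f3ad_nt

universe u

/-- The places of `K` above `2`. -/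
def Above (K : Type u) [Field K] [NumberField K] : Set (HeightOneSpectrum (𝓞 K)) :=
  {v | ((2 : ℕ) : 𝓞 K) ∈ v.asIdeal}

/-- The valuation of `a` at `v` is even. -/
def EvenVal (K : Type u) [Field K] [NumberField K] (v : HeightOneSpectrum (𝓞 K)) (a : K) :
    Prop := ∃ y : K, v.valuation K a = v.valuation K y ^ 2

/-- `a` is a square in the completion `K_v`. -/
def LocSq (K : Type u) [Field K] [NumberField K] (v : HeightOneSpectrum (𝓞 K)) (a : K) :
    Prop := ∃ y : v.adicCompletion K, y ^ 2 = algebraMap K (v.adicCompletion K) a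

/-- `m0 ∏ y_i`. -/
noncomputable def value {F : Type u} [Field F] [NumberField F] {t : ℕ} (m0 : 𝓞 F)
    (y : Fin t → 𝓞 F) : 𝓞 F := m0 * ∏ i, y i

/-- The special places: the places above `2`, and the places where the valuation of `m0` is odd. -/
def Special (F : Type u) [Field F] [NumberField F] (m0 : 𝓞 F) :
    Set (HeightOneSpectrum (𝓞 F)) := {v | v ∈ Above F ∨ ¬ EvenVal F v (m0 : F)}

/-- The hypothesis on the base field: Schneider's conjecture for `F`, `2` and the twist `r`; or `F` has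
one place above `2`, and no quadratic extension unramified at all finite places in which this place
splits (every `d` with even valuations outside `2` which is a square at the place above `2` is a
square). -/
def Base (F : Type u) [Field F] [NumberField F] (r : ℤ) : Prop :=
  Sha1 F 2 r (Above F) = ⊥ ∨
    ((∀ v ∈ Above F, ∀ w ∈ Above F, v = w) ∧
      ∀ d : 𝓞 F, d ≠ 0 → (∀ q : HeightOneSpectrum (𝓞 F), q ∉ Above F → EvenVal F q (d : F)) →
        (∀ v ∈ Above F, LocSq F v (d : F)) → ∃ g : 𝓞 F, g ^ 2 = d)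

/-- Schneider's conjecture at `2` ascends from `F` to `L = F(√m)` for all twists `r ≠ 0` of the parity of
`j`: for all these `r` with `Base F r`, `Ш^1(O_{L,S}, ℤ_2(r)) = 0` for all `S` which contain the places
above `2`. (If `m` were a square in `F`, every quadratic `L` would qualify; this does not happen in the
theorem, because there `m` is not a square at the places above `2`.) -/
def Ascends {F : Type u} [Field F] [NumberField F] (j : ℕ) (m : 𝓞 F) : Prop :=
  ∀ (L : Type u) [Field L] [NumberField L] [Algebra F L] (y : L), Module.finrank F L = 2 →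
    y ^ 2 = algebraMap F L (m : F) → ∀ r : ℤ, r ≠ 0 → Even (r - j) → Base F r →
    ∀ S : Set (HeightOneSpectrum (𝓞 L)), (∀ v ∈ Above L, v ∈ S) → Sha1 L 2 r S = ⊥

/-- `b` is, in the completion `F_v`, one of `1, -1, M, -M` times a square, and
`b = y^2 + (-1)^j M z^2` (a norm from `F_v(√M)` if `j` is odd, from `F_v(√(-M))` if `j` is even). -/
def LocNorm (F : Type u) [Field F] [NumberField F] (j : ℕ) (v : HeightOneSpectrum (𝓞 F))
    (M b : F) : Prop :=
  (∃ k l : ℕ, LocSq F v (b * M ^ k * (-1) ^ l)) ∧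
    ∃ y z : v.adicCompletion F, algebraMap F (v.adicCompletion F) b =
      y ^ 2 + (-1) ^ j * algebraMap F (v.adicCompletion F) M * z ^ 2

/-- `d` is a witness for the exponent vector `e`, `M = m0 ∏ x_i`, `b = d ∏ x_i^(e_i)`: `d` has even
valuation at the places which are not special, `b` satisfies `LocNorm` at the special places, and `b` is
positive at the real places where `(-1)^j M` is positive. -/
structure Witness {F : Type u} [Field F] [NumberField F] (j : ℕ) {t : ℕ} (m0 : 𝓞 F)
    (x : Fin t → 𝓞 F) (e : Fin t → ZMod 2) (d : 𝓞 F) : Prop where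
  ne : d ≠ 0
  val : ∀ q : HeightOneSpectrum (𝓞 F), q ∉ Special F m0 → EvenVal F q (d : F)
  loc : ∀ v ∈ Special F m0,
    LocNorm F j v (value m0 x : F) ((d * ∏ i, x i ^ (e i).val : 𝓞 F) : F)
  pos : ∀ s : F →+* ℝ, (-1) ^ j * s (value m0 x : F) < 0 ∨
    0 < s ((d * ∏ i, x i ^ (e i).val : 𝓞 F) : F)

/-- `d` and `d'` are equal up to squares of `F*`. -/
def SameClass {F : Type u} [Field F] [NumberField F] (d d' : 𝓞 F) : Prop :=
  ∃ g g' : 𝓞 F, g ≠ 0 ∧ g' ≠ 0 ∧ g ^ 2 * d = g' ^ 2 * d'

/-- `R` is a system of representatives of the pairs (`e`, class of `d` up to squares), `e` not constant,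
`d` a witness for `e`; its number of elements is the number of these pairs. -/
structure Representatives {F : Type u} [Field F] [NumberField F] (j : ℕ) {t : ℕ} (m0 : 𝓞 F)
    (x : Fin t → 𝓞 F) (R : Finset ((Fin t → ZMod 2) × 𝓞 F)) : Prop where
  mem : ∀ a ∈ R, (∃ i k, a.1 i ≠ a.1 k) ∧ Witness j m0 x a.1 a.2
  inj : ∀ a ∈ R, ∀ b ∈ R, a.1 = b.1 → SameClass a.2 b.2 → a = b
  cov : ∀ (e : Fin t → ZMod 2) (D : 𝓞 F), (∃ i k, e i ≠ e k) →
    Witness j m0 x e D → ∃ d, (e, d) ∈ R ∧ SameClass D d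

/-- A finite set of prime elements of `𝓞 F` not above `2`, with all conjugates of absolute value at
most `X`, no two of them associated. -/
structure PrimeSet (F : Type u) [Field F] [NumberField F] (X : ℕ) (P : Finset (𝓞 F)) : Prop where
  pr : ∀ z ∈ P, Prime z
  np : ∀ z ∈ P, ¬ z ∣ ((2 : ℕ) : 𝓞 F)
  bd : ∀ z ∈ P, ∀ s : F →+* ℂ, ‖s (z : F)‖ ≤ (X : ℝ)
  na : ∀ z ∈ P, ∀ z' ∈ P, Associated z z' → z = z'

/-- the sign with which `m0` enters the work files -/
noncomputable def sg {F : Type u} [Field F] [NumberField F] (j : ℕ) (m0 : 𝓞 F) : 𝓞 F :=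
  (-1) ^ (j + 1) * m0

theorem sg_ne {F : Type u} [Field F] [NumberField F] (j : ℕ) {m0 : 𝓞 F} (h : m0 ≠ 0) :
    sg j m0 ≠ 0 := mul_ne_zero (pow_ne_zero _ (neg_ne_zero.2 one_ne_zero)) h

theorem sg_cases {F : Type u} [Field F] [NumberField F] (j : ℕ) (m0 : 𝓞 F) :
    (Odd j ∧ sg j m0 = m0) ∨ (Even j ∧ sg j m0 = -m0) := by
  unfold sg
  rcases Nat.even_or_odd j with h | h
  · exact Or.inr ⟨h, by rw [Odd.neg_one_pow (Even.add_one h)]; ring⟩
  · exact Or.inl ⟨h, by rw [Even.neg_one_pow (Odd.add_one h)]; ring⟩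

theorem Mq_neg {F : Type u} [Field F] [NumberField F] {t : ℕ} (m0 : 𝓞 F) (x : Fin t → 𝓞 F) :
    (QD.Mq (-m0) x : F) = -(value m0 x : F) := by
  have h : QD.Mq (-m0) x = -(value m0 x) := by
    unfold QD.Mq value
    ring
  rw [h]
  rfl

theorem even_neg {F : Type u} [Field F] [NumberField F] (v : HeightOneSpectrum (𝓞 F))
    (m0 : 𝓞 F) : EvenVal F v ((-m0 : 𝓞 F) : F) ↔ EvenVal F v (m0 : F) := by
  have h : ((-m0 : 𝓞 F) : F) = -(m0 : F) := rfl
  unfold EvenVal
  rw [h, Valuation.map_neg]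

theorem TT_neg {F : Type u} [Field F] [NumberField F] (v : HeightOneSpectrum (𝓞 F))
    (m0 : 𝓞 F) : v ∈ PX.TT F 2 (-m0) ↔ v ∈ Special F m0 := by
  change (v ∈ Above F ∨ ¬ EvenVal F v ((-m0 : 𝓞 F) : F)) ↔ (v ∈ Above F ∨ ¬ EvenVal F v (m0 : F))
  rw [even_neg]

theorem TT_sg {F : Type u} [Field F] [NumberField F] (j : ℕ) (v : HeightOneSpectrum (𝓞 F))
    (m0 : 𝓞 F) : v ∈ PX.TT F 2 (sg j m0) ↔ v ∈ Special F m0 := by
  rcases sg_cases j m0 with ⟨-, h⟩ | ⟨-, h⟩
  · rw [h]
    exact Iff.rfl
  · rw [h]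
    exact TT_neg v m0

theorem loc_neg {F : Type u} [Field F] [NumberField F] (v : HeightOneSpectrum (𝓞 F)) (M b : F) :
    (∃ k l : ℕ, LocSq F v (b * (-M) ^ k * (-1) ^ l)) ↔
      ∃ k l : ℕ, LocSq F v (b * M ^ k * (-1) ^ l) := by
  constructor
  · rintro ⟨k, l, h⟩
    refine ⟨k, k + l, ?_⟩
    have e : b * M ^ k * (-1) ^ (k + l) = b * (-M) ^ k * (-1) ^ l := by
      rw [neg_pow M k, pow_add]
      ring
    rw [e]
    exact h
  · rintro ⟨k, l, h⟩
    refine ⟨k, k + l, ?_⟩
    have e : b * (-M) ^ k * (-1) ^ (k + l) = b * M ^ k * (-1) ^ l := by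
      rw [neg_pow M k, pow_add]
      have h1 : ((-1 : F) ^ k) * (-1) ^ k = 1 := by
        rw [← mul_pow]
        norm_num
      linear_combination (b * M ^ k * (-1) ^ l) * h1
    rw [e]
    exact h

theorem wit_iff {F : Type u} [Field F] [NumberField F] {j t : ℕ} {m0 : 𝓞 F} {x : Fin t → 𝓞 F}
    {e : Fin t → ZMod 2} {d : 𝓞 F} : QD.Wq (sg j m0) x e d ↔ Witness j m0 x e d := by
  rcases sg_cases j m0 with ⟨hj, h⟩ | ⟨hj, h⟩
  · have hl : ∀ (v : HeightOneSpectrum (𝓞 F)) (M b : F), QD.Lq F v M b ↔ LocNorm F j v M b := by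
      intro v M b
      unfold QD.Lq LocNorm
      rw [hj.neg_one_pow]
      simp only [neg_mul, one_mul, ← sub_eq_add_neg]
      exact Iff.rfl
    rw [h]
    constructor
    · intro w
      refine ⟨w.ne, w.val, fun v hv => (hl v _ _).1 (w.loc v hv), fun s => ?_⟩
      rw [hj.neg_one_pow]
      rcases w.pos s with h1 | h1
      · exact Or.inl (by
          have h2 : 0 < s (value m0 x : F) := h1
          linarith)
      · exact Or.inr h1
    · intro w
      refine ⟨w.ne, w.val, fun v hv => (hl v _ _).2 (w.loc v hv), fun s => ?_⟩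
      have h0 := w.pos s
      rw [hj.neg_one_pow] at h0
      rcases h0 with h1 | h1
      · exact Or.inl (by
          show 0 < s (value m0 x : F)
          linarith)
      · exact Or.inr h1
  · have hl : ∀ (v : HeightOneSpectrum (𝓞 F)) (b : F),
        QD.Lq F v (QD.Mq (-m0) x : F) b ↔ LocNorm F j v (value m0 x : F) b := by
      intro v b
      unfold QD.Lq LocNorm
      rw [Mq_neg, hj.neg_one_pow]
      refine and_congr (loc_neg v _ b) ?_
      simp only [map_neg, neg_mul, sub_neg_eq_add, one_mul]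
    rw [h]
    constructor
    · intro w
      refine ⟨w.ne, fun q hq => w.val q fun h1 => hq ((TT_neg q m0).1 h1),
        fun v hv => (hl v _).1 (w.loc v ((TT_neg v m0).2 hv)), fun s => ?_⟩
      rw [hj.neg_one_pow, one_mul]
      rcases w.pos s with h1 | h1
      · rw [Mq_neg, map_neg] at h1
        exact Or.inl (neg_pos.1 h1)
      · exact Or.inr h1
    · intro w
      refine ⟨w.ne, fun q hq => w.val q fun h1 => hq ((TT_neg q m0).2 h1),
        fun v hv => (hl v _).2 (w.loc v ((TT_neg v m0).1 hv)), fun s => ?_⟩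
      have h0 := w.pos s
      rw [hj.neg_one_pow, one_mul] at h0
      rcases h0 with h1 | h1
      · refine Or.inl ?_
        rw [Mq_neg, map_neg]
        exact neg_pos.2 h1
      · exact Or.inr h1

open Classical in
/-- **Theorem.** Let `F` be a number field, `F ≠ ℚ`, `t ≥ 1`, `m0`, `x_1, …, x_t` nonzero integers of `F`
such that neither `M = m0 ∏ x_i` nor `-M` is a square at a place above `2`, `j` a natural number (only its
parity matters). Let `N` be the (finite) number of the pairs (`e`, `d` up to squares) with `e` in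
`(ℤ/2)^t` not constant and `d` a witness for `e`. If every witness for `0` is a square then `N ≤ 2^t - 2`.
For every `ε > 0` there is `X0` such that for `X ≥ X0` and all sets `P_1, …, P_t` of prime elements with
conjugates bounded by `X`, with at least `X^(n - 1/4)` elements, `n = [F : ℚ]`, in the classes of the `x_i`
(equal up to squares at the special places, the same signs at the real places), such that every witness
`d` for `0` is a square, or, for some `i`, is not a square modulo any prime of `P_i` which does not divide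
it: Schneider's conjecture at `2` ascends (for all twists `r ≠ 0`, `r = j` modulo `2`) from `F` to
`F(√(m0 ∏ π_i))` for all but at most `(N / 2^t + ε) ∏ |P_i|` of the tuples `(π_1, …, π_t)` in
`∏ P_i`. -/
theorem result (F : Type u) [Field F] [NumberField F] (hF : 2 ≤ Module.finrank ℚ F) (t : ℕ)
    (ht : 1 ≤ t) (m0 : 𝓞 F) (hm0 : m0 ≠ 0) (x : Fin t → 𝓞 F) (hx : ∀ i, x i ≠ 0)
    (hM : ∀ v ∈ Above F, ¬ LocSq F v (value m0 x : F) ∧ ¬ LocSq F v (-(value m0 x : F))) (j : ℕ) :
    ∃ R : Finset ((Fin t → ZMod 2) × 𝓞 F), Representatives j m0 x R ∧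
      ((∀ d : 𝓞 F, Witness j m0 x 0 d → ∃ g : 𝓞 F, g ^ 2 = d) → R.card ≤ 2 ^ t - 2) ∧
      ∀ ε : ℝ, 0 < ε → ∃ X0 : ℕ, ∀ X : ℕ, X0 ≤ X → ∀ P : Fin t → Finset (𝓞 F),
        (∀ i, PrimeSet F X (P i)) →
        (∀ i, (X : ℝ) ^ ((Module.finrank ℚ F : ℝ) - 1 / 4) ≤ (P i).card) →
        (∀ i, ∀ z ∈ P i, ∀ v ∈ Special F m0, ∃ y : v.adicCompletion F,
          algebraMap F (v.adicCompletion F) (z : F) =
            algebraMap F (v.adicCompletion F) (x i : F) * y ^ 2) →
        (∀ i, ∀ z ∈ P i, ∀ s : F →+* ℝ, 0 < s (z : F) * s (x i : F)) →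
        (∀ d : 𝓞 F, Witness j m0 x 0 d → (∃ g : 𝓞 F, g ^ 2 = d) ∨
          ∃ i, ∀ z ∈ P i, ¬ z ∣ d → ¬ ∃ y : 𝓞 F, z ∣ y ^ 2 - d) →
        (((Fintype.piFinset P).filter fun π => ¬ Ascends j (value m0 π)).card : ℝ) ≤
          ((R.card : ℝ) / (2 : ℝ) ^ t + ε) * ∏ i, ((P i).card : ℝ) := by
  obtain ⟨R, hR⟩ := QD.all_RE.{u} F t (sg j m0) x (sg_ne j hm0)
  refine ⟨R, ⟨fun a ha => ⟨(hR.mem a ha).1, wit_iff.1 (hR.mem a ha).2⟩, hR.inj,
    fun e D he hD => hR.cov e D he (wit_iff.2 hD)⟩, fun h0 => ?_, fun ε hε => ?_⟩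
  · exact QD.all_BN.{u} F t (sg j m0) x ht (sg_ne j hm0) hx
      (fun d hd => h0 d (wit_iff.1 hd)) R hR
  · rcases sg_cases j m0 with ⟨hj, hs⟩ | ⟨hj, hs⟩
    · obtain ⟨X0, hX0⟩ := QD.all_CN.{u} F hF t (sg j m0) x ht (sg_ne j hm0) hx
        (by rw [hs]; exact hM) R (fun a ha => (hR.mem a ha).2.ne) hR.cov ε hε
      refine ⟨X0, fun X hX P hP hcard hloc hsg hH => ?_⟩
      refine le_trans ?_ (hX0 X hX P (fun i => ⟨(hP i).pr, (hP i).np, (hP i).bd, (hP i).na⟩)
        hcard (fun i z hz v hv => hloc i z hz v ((TT_sg j v m0).1 hv)) hsg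
        (fun d hd => hH d (wit_iff.1 hd)))
      have hsub : ((Fintype.piFinset P).filter fun π => ¬ Ascends j (value m0 π)) ⊆
          (Fintype.piFinset P).filter (fun π => ¬ QD.Gd (sg j m0) π) := by
        refine Finset.monotone_filter_right _ fun π _ h h1 => h ?_
        intro L _ _ _ y hL hy r hr hrj hB S hS
        rw [hs] at h1
        have hro : Odd r := by
          obtain ⟨c, hc⟩ := hrj
          obtain ⟨d, hd⟩ := hj
          exact ⟨c + d, by rw [hd] at hc; push_cast at hc; linarith⟩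
        refine h1 L y hL hy r hro ?_ S hS
        rcases hB with hB | ⟨h2, h3⟩
        · exact hB
        · exact QD.all_BS.{u} F h2 h3 r
      exact_mod_cast Finset.card_le_card hsub
    · obtain ⟨X0, hX0⟩ := QD.all_CE.{u} F hF t (sg j m0) x ht (sg_ne j hm0) hx
        (by
          rw [hs, Mq_neg, neg_neg]
          exact fun v hv => ⟨(hM v hv).2, (hM v hv).1⟩) R
        (fun a ha => (hR.mem a ha).2.ne) hR.cov ε hε
      refine ⟨X0, fun X hX P hP hcard hloc hsg hH => ?_⟩
      refine le_trans ?_ (hX0 X hX P (fun i => ⟨(hP i).pr, (hP i).np, (hP i).bd, (hP i).na⟩)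
        hcard (fun i z hz v hv => hloc i z hz v ((TT_sg j v m0).1 hv)) hsg
        (fun d hd => hH d (wit_iff.1 hd)))
      have hsub : ((Fintype.piFinset P).filter fun π => ¬ Ascends j (value m0 π)) ⊆
          (Fintype.piFinset P).filter (fun π => ¬ QD.Ge (sg j m0) π) := by
        refine Finset.monotone_filter_right _ fun π _ h h1 => h ?_
        intro L _ _ _ y hL hy r hr hrj hB S hS
        rw [hs] at h1
        have hre : Even r := by
          obtain ⟨c, hc⟩ := hrj
          obtain ⟨d, hd⟩ := hj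
          exact ⟨c + d, by rw [hd] at hc; push_cast at hc; linarith⟩
        refine h1 L y hL (by rw [Mq_neg, neg_neg]; exact hy) r hre hr ?_ S hS
        rcases hB with hB | ⟨h2, h3⟩
        · exact hB
        · exact QD.all_BS.{u} F h2 h3 r
      exact_mod_cast Finset.card_le_card hsub

end Pool.Agent.Results.MP_59f3ad_nt.QuadraticExtensions
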