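import Mathlib
import Pool.Agent.Work.MP_59f3ad_nt.Tw.AllSeven
import Pool.Agent.Work.MP_59f3ad_nt.Tw.SetForm
import Pool.Agent.Work.MP_59f3ad_nt.Pex.All

/-!
Schneider's conjecture for the twists `r ≡ 1 mod p - 1` in all primitively ramified Galois
extensions of `p`-power degree (and their subfields) of almost all members of an arbitrary family of
number fields with a full system of parametric units.
-/

open Polynomial NumberField IsDedekindDomain

namespace Pool.Agent.Results.MP_59f3ad_nt.TowersAnyFamily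

open Pool.Agent.Work.MP_59f3ad_nt Pool.Agent.Work.MP_59f3ad_nt.Pex

universe u

/-- `S` contains all finite places above `p`. -/
def Above (K : Type u) [Field K] [NumberField K] (p : ℕ) (S : Set (HeightOneSpectrum (𝓞 K))) :
    Prop :=
  ∀ v : HeightOneSpectrum (𝓞 K), (p : 𝓞 K) ∈ v.asIdeal → v ∈ S

/-- The cocycles `φ_i` for the twists `r_i` are `ℤ_p`-independent modulo coboundaries: if for every
`ρ` the combination of those `φ_i` with `r_i = ρ` is a coboundary of `ℤ_p(ρ)`, then all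
coefficients are `0`. -/
def Indep (K : Type u) [Field K] [NumberField K] (p : ℕ) [Fact p.Prime] {n : ℕ} (r : Fin n → ℤ)
    (φ : Fin n → GK K → ℤ_[p]) : Prop :=
  ∀ a : Fin n → ℤ_[p], (∀ ρ : ℤ, (fun g => ∑ i with r i = ρ, a i * φ i g) ∈ B1 K p ρ) → a = 0

/-- `Ш^1(ℤ_p(r)) = 0` for all `r ≡ 1 mod p - 1`. -/
def NoTwist (K : Type u) [Field K] [NumberField K] (p : ℕ) [Fact p.Prime] : Prop :=
  ∀ S : Set (HeightOneSpectrum (𝓞 K)), Above K p S →
    ∀ r : ℤ, ((p : ℤ) - 1) ∣ r - 1 → Sha1 K p r S = ⊥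

/-- `Ш^1(ℤ_p(1)) = 0`, and `p ^ ∑ (1 + v_p(r - 1)) ≤ B` for every finite set `R` of exceptional
twists `r ≡ 1 mod p - 1`, `r ≠ 1` (`Ш^1(ℤ_p(r)) ≠ 0`), and more generally, with multiplicities,
for all independent locally trivial cocycles for such twists. -/
def FewTwists (K : Type u) [Field K] [NumberField K] (p : ℕ) [Fact p.Prime] (B : ℕ) : Prop :=
  ∀ S : Set (HeightOneSpectrum (𝓞 K)), Above K p S → Sha1 K p 1 S = ⊥ ∧
    (∀ R : Finset ℤ, (∀ r ∈ R, r ≠ 1 ∧ ((p : ℤ) - 1) ∣ r - 1 ∧ Sha1 K p r S ≠ ⊥) →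
      p ^ (∑ r ∈ R, (1 + padicValInt p (r - 1))) ≤ B) ∧
    ∀ (n : ℕ) (r : Fin n → ℤ) (φ : Fin n → GK K → ℤ_[p]),
      (∀ i, r i ≠ 1 ∧ ((p : ℤ) - 1) ∣ r i - 1 ∧ φ i ∈ ShaZ K p (r i) S) → Indep K p r φ →
      p ^ (∑ i, (1 + padicValInt p (r i - 1))) ≤ B

/-- The valuation of `a` at `v` is divisible by `p`. -/
def ValDvd (K : Type u) [Field K] [NumberField K] (p : ℕ) (v : HeightOneSpectrum (𝓞 K)) (a : K) :
    Prop := ∃ y : K, v.valuation K a = v.valuation K y ^ p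

/-- `M/K` is primitively ramified: if `a ∈ K^*` is a `p`-th power in all completions above `p` and has
valuation divisible by `p` at all places not above `p` which are unramified in `M`, then it has
valuation divisible by `p` at all places. -/
def Primitive (K M : Type u) [Field K] [NumberField K] [Field M] [NumberField M] [Algebra K M]
    (p : ℕ) : Prop :=
  ∀ a : K, a ≠ 0 →
    (∀ v : HeightOneSpectrum (𝓞 K), (p : 𝓞 K) ∈ v.asIdeal →
      ∃ η : v.adicCompletion K, η ^ p = algebraMap K (v.adicCompletion K) a) →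
    (∀ v : HeightOneSpectrum (𝓞 K), (p : 𝓞 K) ∉ v.asIdeal →
      Algebra.IsUnramifiedIn (𝓞 M) v.asIdeal → ValDvd K p v a) →
    ∀ v : HeightOneSpectrum (𝓞 K), ValDvd K p v a

/-- `M/K` is unramified at all finite places not above `p`, with the possible exception of one place
`v₀`, which divides a prime number `q` with `q ^ (p - 1) ≢ 1` modulo `p ^ 2`. -/
def OneTame (K M : Type u) [Field K] [NumberField K] [Field M] [NumberField M] [Algebra K M]
    (p : ℕ) : Prop :=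
  (∀ v : HeightOneSpectrum (𝓞 K), (p : 𝓞 K) ∉ v.asIdeal → Algebra.IsUnramifiedIn (𝓞 M) v.asIdeal) ∨
  ∃ (v₀ : HeightOneSpectrum (𝓞 K)) (q : ℕ), q.Prime ∧ (q : 𝓞 K) ∈ v₀.asIdeal ∧
    ¬ p ^ 2 ∣ q ^ (p - 1) - 1 ∧
    ∀ v : HeightOneSpectrum (𝓞 K), v ≠ v₀ → (p : 𝓞 K) ∉ v.asIdeal →
      Algebra.IsUnramifiedIn (𝓞 M) v.asIdeal

theorem bridge (K M : Type u) [Field K] [NumberField K] [Field M] [NumberField M] [Algebra K M]
    (p : ℕ) (hp : p.Prime) (h : Primitive K M p ∨ OneTame K M p) :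
    Prim K M p ∨ ∃ v₀ q, Mild K M p v₀ q := by
  rcases h with h | h | ⟨v₀, q, h1, h2, h3, h4⟩
  · left
    intro a ha hloc hval
    exact h a ha (fun v hv => by simpa using hloc v hv) hval
  · right
    obtain ⟨v₀, hv₀⟩ := exists_above K p hp
    exact ⟨v₀, p, hp, hv₀, Or.inl rfl, fun v _ hv => h v hv⟩
  · right
    exact ⟨v₀, q, h1, h2, Or.inr h3, h4⟩

theorem result (m : ℕ) (F : (MvPolynomial (Fin (m + 1)) ℤ)[X]) (hF : F.Monic) (n : ℕ)
    (u : Fin n → (AdjoinRoot F)ˣ)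
    (hu : ∀ E : Fin n → ℤ, E ≠ 0 →
      Transcendental ℤ ((∏ i, u i ^ E i : (AdjoinRoot F)ˣ) : AdjoinRoot F)) :
    ∃ A : ℕ, ∀ H : ℕ, 2 ≤ H → ∃ Bad : Set (Fin (m + 1) → ℤ),
      ({t : Fin (m + 1) → ℤ | (∀ i, |t i| ≤ H) ∧ t ∈ Bad}.ncard : ℝ) ≤
        A * (H : ℝ) ^ (m + 1) / Real.log H ∧
      ∀ t : Fin (m + 1) → ℤ, (∀ i, |t i| ≤ H) → t ∉ Bad →
        Irreducible (F.map (MvPolynomial.eval t)) →
        ∀ (K : Type u) [Field K] [NumberField K] (x : K),
          aeval x (F.map (MvPolynomial.eval t)) = 0 → Module.finrank ℚ K = F.natDegree →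
          Units.rank K = n →
          (∃ P : Finset ℕ, (P.card : ℝ) ≤ A * (Real.log H) ^ 2 ∧
            ∀ (p : ℕ) [Fact p.Prime], p ^ 2 ≤ H → p ∉ P →
              ∀ (M : Type u) [Field M] [NumberField M] [Algebra K M] [IsGalois K M],
              (∃ j : ℕ, Module.finrank K M = p ^ j) → (Primitive K M p ∨ OneTame K M p) →
              ∀ L : IntermediateField K M, NoTwist L p) ∧
          ∀ (p : ℕ) [Fact p.Prime], p ^ 2 ≤ H → (∀ ζ : K, ζ ^ p = 1 → ζ = 1) →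
            FewTwists K p (A * H ^ A) := by
  obtain ⟨A, hA⟩ := Pex.allSevenB.{u} m F hF n u hu
  refine ⟨A, fun H hH => ?_⟩
  obtain ⟨Bad, hBad, h⟩ := hA H hH
  refine ⟨Bad, hBad, fun t ht htB hirr K _ _ x hx hK hrank => ?_⟩
  obtain ⟨h5, P, hP, h6⟩ := h t ht htB hirr K x hx hK hrank
  refine ⟨⟨P, hP, fun p hpf hp hpP M _ _ _ _ hj hM L S hS r hr => ?_⟩, fun p _ hp hζ S hS => ?_⟩
  · obtain ⟨j, hj⟩ := hj
    exact Pex.all_top K M p j (h6 p hp hpP) hj (bridge K M p hpf.out hM) L S hS r hr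
  · obtain ⟨h7, h8⟩ := h5 p hp hζ S hS
    exact ⟨h7, Tw.set_form K p hζ S _ h8, h8⟩

end Pool.Agent.Results.MP_59f3ad_nt.TowersAnyFamily
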